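import Mathlib
import Pool.Agent.H71.AU.Main

/-!
# Auslander's conjecture: affine groups with an abelian normal subgroup of corank at most two

`Γ` is a group of affine transformations of `ℝⁿ` which acts properly discontinuously; it need
not act cocompactly.  If `Γ` has an abelian normal subgroup `A` which contains a copy of `ℤᵏ`
with `k ≥ n - 2`, then `Γ` is virtually solvable.

Proof.  Replace `ℝⁿ` by the affine hyperplane `τ = 1` in the joint generalised `1`-eigenspace
`M` of `A` in `ℝⁿ × ℝ`; there `A` is unipotent, and the real span `h` of the logarithms of `A`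
is a commuting space of nilpotent maps of dimension at least `k` that acts freely on `τ = 1`.
The orbits of `exp h` have codimension at most two, and the derived series of
`exp h · Γ` eventually preserves each orbit; the codimension two case needs that a group of
real `2 × 2` matrices, each of which has the eigenvalue `1` or finite order, is solvable.  By
properness a term of the derived series of `Γ` is contained in finitely many cosets of `A`.
-/

set_option autoImplicit false

namespace Pool.Agent.Results.MP_68c2bd_gt.AbelianNormal

/-- The invertible affine transformations of `ℝⁿ`. -/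
def Aff (n : ℕ) : Type := (Fin n → ℝ) ≃ᵃ[ℝ] (Fin n → ℝ)

/-- They form a group under composition (Mathlib's group structure). -/
instance affGroup (n : ℕ) : Group (Aff n) :=
  inferInstanceAs (Group ((Fin n → ℝ) ≃ᵃ[ℝ] (Fin n → ℝ)))

/-- The image of the point `x` under the affine transformation `g`. -/
def app {n : ℕ} (g : Aff n) (x : Fin n → ℝ) : Fin n → ℝ :=
  AffineEquiv.toEquiv g x

/-- `Γ` acts properly discontinuously on `ℝⁿ`: for every compact `K` the set of `g ∈ Γ` with
`g K ∩ K ≠ ∅` is finite. -/
def ActsProperly {n : ℕ} (Γ : Subgroup (Aff n)) : Prop :=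
  ∀ K : Set (Fin n → ℝ), IsCompact K → {g : Aff n | g ∈ Γ ∧ (app g '' K ∩ K).Nonempty}.Finite

/-- `G` has an abelian normal subgroup which contains a copy of `ℤᵏ`. -/
def HasAbelianNormal (G : Type) [Group G] (k : ℕ) : Prop :=
  ∃ A : Subgroup G, A.Normal ∧ (∀ a ∈ A, ∀ b ∈ A, a * b = b * a) ∧
    ∃ f : Multiplicative (Fin k → ℤ) →* A, Function.Injective f

/-- `G` has a solvable subgroup of finite index. -/
def VirtuallySolvable (G : Type) [Group G] : Prop :=
  ∃ H : Subgroup G, H.FiniteIndex ∧ Group.IsSolvable H

/-- A properly discontinuous group of affine transformations of `ℝⁿ` with an abelian normal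
subgroup of rank at least `n - 2` has a solvable subgroup of finite index. -/
theorem result (n k : ℕ) (hk : n ≤ k + 2) (Γ : Subgroup (Aff n)) (hΓ : ActsProperly Γ)
    (hA : HasAbelianNormal Γ k) : VirtuallySolvable Γ := by
  obtain ⟨A, hAn, hAc, f, hf⟩ := hA
  exact @Pool.Agent.H71.AU.main n Γ hΓ A hAn hAc k hk (MonoidHom.toAdditiveRight f) hf

end Pool.Agent.Results.MP_68c2bd_gt.AbelianNormal
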