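import Mathlib
import Pool.Agent.H14.HR.Aff

/-!
# Auslander's conjecture: groups with a hyperplane whose stabiliser is cocompact

`Γ` is a group of affine transformations of `ℝⁿ` which acts properly discontinuously; it need not
act cocompactly.  Let `F` be an affine hyperplane such that the stabiliser `Γ_F` of `F` in `Γ` acts
cocompactly on `F`; nothing else is assumed on `Γ_F`.  Then `Γ` has a normal subgroup `K` that
preserves `F`, and a subgroup of finite index whose second derived subgroup lies in `K`.  So `Γ` is
virtually solvable if and only if `Γ_F` is.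

Proof.  The images `g F` form a locally finite family, and for finitely many of them the common
stabiliser is cocompact on the intersection.  Choose images `x_1 = 0, …, x_m = 0` of `F` whose
linear parts are a basis of the span of all of them.  If `m = 1` all images are parallel.  If
`m ≥ 2`, and some image meets the `i`-th coordinate line outside the origin, the common stabiliser
of the other coordinate hyperplanes acts on this line by affine maps that preserve a locally finite
set with two points, so by isometries, and contains an element that translates the line; by local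
finiteness it acts on the functional `x_i` as a translation.  Hence either no two images are
parallel, and then all of them pass through the origin and they are finitely many, or there are `m`
independent translations, which move every image into a bounded region.  In all cases the images
have finitely many directions; a subgroup of finite index preserves them, and its second derived
subgroup fixes all the functionals.  The last statement holds because virtually solvable groups are
closed under extensions.
-/

set_option autoImplicit false

namespace Pool.Agent.Results.MP_68c2bd_gt.CocompactHyperplane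

/-- The invertible affine transformations of `ℝⁿ`. -/
def Aff (n : ℕ) : Type := (Fin n → ℝ) ≃ᵃ[ℝ] (Fin n → ℝ)

/-- They form a group under composition (Mathlib's group structure). -/
instance affGroup (n : ℕ) : Group (Aff n) :=
  inferInstanceAs (Group ((Fin n → ℝ) ≃ᵃ[ℝ] (Fin n → ℝ)))

/-- The image of the point `x` under the affine transformation `g`. -/
def app {n : ℕ} (g : Aff n) (x : Fin n → ℝ) : Fin n → ℝ :=
  AffineEquiv.toEquiv g x

/-- `Γ` acts properly discontinuously on `ℝⁿ`: for every compact `K` the set of `g ∈ Γ` with
`g K ∩ K ≠ ∅` is finite. -/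
def ActsProperly {n : ℕ} (Γ : Subgroup (Aff n)) : Prop :=
  ∀ K : Set (Fin n → ℝ), IsCompact K → {g : Aff n | g ∈ Γ ∧ (app g '' K ∩ K).Nonempty}.Finite

/-- `F` is an affine hyperplane of `ℝⁿ`: it is not empty and its direction has dimension
`n - 1`. -/
def IsHyperplane {n : ℕ} (F : AffineSubspace ℝ (Fin n → ℝ)) : Prop :=
  (F : Set (Fin n → ℝ)).Nonempty ∧ Module.finrank ℝ F.direction + 1 = n

/-- The subgroup of the elements `g` of `Γ` with `g F = F`. -/
def stab {n : ℕ} (Γ : Subgroup (Aff n)) (F : AffineSubspace ℝ (Fin n → ℝ)) : Subgroup Γ where
  carrier := {g | ∀ x, app (g : Aff n) x ∈ F ↔ x ∈ F}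
  one_mem' := fun _ => Iff.rfl
  mul_mem' := fun {g h} hg hh x => (hg (app (h : Aff n) x)).trans (hh x)
  inv_mem' := by
    intro g hg x
    have h1 : app (g : Aff n) (app ((g⁻¹ : Γ) : Aff n) x) = x :=
      AffineEquiv.apply_symm_apply
        (show (Fin n → ℝ) ≃ᵃ[ℝ] (Fin n → ℝ) from (g : Aff n)) x
    have h2 := hg (app ((g⁻¹ : Γ) : Aff n) x)
    rw [h1] at h2
    exact h2.symm

/-- The stabiliser of `F` in `Γ` acts cocompactly on `F`: some compact set meets all of its orbits
in `F`. -/
def CocompactOn {n : ℕ} (Γ : Subgroup (Aff n)) (F : AffineSubspace ℝ (Fin n → ℝ)) : Prop :=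
  ∃ K : Set (Fin n → ℝ), IsCompact K ∧ ∀ x ∈ F, ∃ g ∈ stab Γ F, app (g : Aff n) x ∈ K

/-- `G` has a solvable subgroup of finite index. -/
def VirtuallySolvable (G : Type) [Group G] : Prop :=
  ∃ H : Subgroup G, H.FiniteIndex ∧ Group.IsSolvable H

/-- Some subgroup of `G` of finite index has its second derived subgroup in `K`. -/
def VirtuallyMetabelianModulo {G : Type} [Group G] (K : Subgroup G) : Prop :=
  ∃ H : Subgroup G, H.FiniteIndex ∧ (derivedSeries H 2).map H.subtype ≤ K

/-- Let `Γ` be a properly discontinuous group of affine transformations of `ℝⁿ` and let `F` be an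
affine hyperplane on which the stabiliser `Γ_F` of `F` in `Γ` acts cocompactly. Then `Γ` has a
normal subgroup `K` that preserves `F`, such that the second derived subgroup of some subgroup of
finite index of `Γ` lies in `K`; and `Γ` is virtually solvable if and only if `Γ_F` is. -/
theorem result (n : ℕ) (Γ : Subgroup (Aff n)) (hΓ : ActsProperly Γ)
    (F : AffineSubspace ℝ (Fin n → ℝ)) (hF : IsHyperplane F) (hc : CocompactOn Γ F) :
    (∃ K : Subgroup Γ, K.Normal ∧ K ≤ stab Γ F ∧ VirtuallyMetabelianModulo K) ∧
      (VirtuallySolvable Γ ↔ VirtuallySolvable (stab Γ F)) := by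
  obtain ⟨⟨x₀, hx₀⟩, hF1⟩ := hF
  obtain ⟨K₀, hK₀, hc1⟩ := hc
  exact Pool.Agent.H14.HR.main_hyp n Γ hΓ F x₀ hx₀ hF1 (stab Γ F) (fun _ => Iff.rfl) K₀ hK₀ hc1

end Pool.Agent.Results.MP_68c2bd_gt.CocompactHyperplane
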