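import Mathlib
import Pool.Agent.H30.T4.Aff

/-!
# Auslander's conjecture: affine groups with a large abelian subgroup

`Γ` is a group of affine transformations of `ℝⁿ` which acts properly discontinuously; it need not
act cocompactly.  If `Γ` contains a copy of `ℤᵏ` with `k ≥ n - 1`, then `Γ` is virtually solvable.
The subgroup `ℤᵏ` is not assumed to be normal, and nothing is assumed on linear parts.

Proof.  Let `A ≅ ℤ^(n-1)`, in the linear model `E = ℝⁿ × ℝ`, `τ` the last coordinate.  If `A` is
not unipotent or preserves a proper affine subspace, then `A` is cocompact on a hyperplane and the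
theorem on cocompact hyperplanes applies.  Otherwise `E` is a free module of rank one over the
commutative algebra `ℝ[A] = ℝ + m`, and the span `h` of the logarithms of `A` is a hyperplane of
`m`.  Let `J` be the space of maps that shift a composition series of `E` under `Γ`.  By a
Zassenhaus argument the unipotent elements of `Γ` do not accumulate at `1` modulo `J`, so
`A ∩ (1 + J)` is a lattice in `h ∩ J`.  The group `B = A (Γ ∩ (1 + J))` is unipotent; either it is
cocompact, and then `Γ` is virtually nilpotent, or `A` has finite index in it, and then `Γ`
normalises `h ∩ J`.  In the second case a dimension count shows that `exp (h ∩ J)` is simply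
transitive on the fibres of `τ = 1` over its quotient by `(h ∩ J) E`, and we pass to the quotient.
There remains the case `h ∩ J = 0`.  Then `ℝ[A]` is a Gorenstein local algebra, `ker τ` is
irreducible under `Γ`, and some element of `h` acts on `ker τ` with rank one.  The conjugates of
its exponentials generate a group that contains elements without the eigenvalue `1` on `ker τ`;
since all the maps are polynomial in real parameters, `Γ` contains elements `γ` with
`|det (γ - 1)|` on `ker τ` arbitrarily large.  Such an element has a fixed point, so it has finite
order, which bounds the determinant: a contradiction.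
-/

set_option autoImplicit false

namespace Pool.Agent.Results.MP_68c2bd_gt.MaximalAbelian

/-- The invertible affine transformations of `ℝⁿ`. -/
def Aff (n : ℕ) : Type := (Fin n → ℝ) ≃ᵃ[ℝ] (Fin n → ℝ)

/-- They form a group under composition (Mathlib's group structure). -/
instance affGroup (n : ℕ) : Group (Aff n) :=
  inferInstanceAs (Group ((Fin n → ℝ) ≃ᵃ[ℝ] (Fin n → ℝ)))

/-- The image of the point `x` under the affine transformation `g`. -/
def app {n : ℕ} (g : Aff n) (x : Fin n → ℝ) : Fin n → ℝ :=
  AffineEquiv.toEquiv g x

/-- `Γ` acts properly discontinuously on `ℝⁿ`: for every compact `K` the set of `g ∈ Γ` with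
`g K ∩ K ≠ ∅` is finite. -/
def ActsProperly {n : ℕ} (Γ : Subgroup (Aff n)) : Prop :=
  ∀ K : Set (Fin n → ℝ), IsCompact K → {g : Aff n | g ∈ Γ ∧ (app g '' K ∩ K).Nonempty}.Finite

/-- `G` contains a copy of `ℤᵏ`. -/
def ContainsZ (G : Type) [Group G] (k : ℕ) : Prop :=
  ∃ f : Multiplicative (Fin k → ℤ) →* G, Function.Injective f

/-- `G` has a solvable subgroup of finite index. -/
def VirtuallySolvable (G : Type) [Group G] : Prop :=
  ∃ H : Subgroup G, H.FiniteIndex ∧ Group.IsSolvable H

/-- A properly discontinuous group of affine transformations of `ℝⁿ` that contains a copy of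
`ℤᵏ` with `k ≥ n - 1` has a solvable subgroup of finite index. -/
theorem result (n k : ℕ) (hk : n ≤ k + 1) (Γ : Subgroup (Aff n)) (hΓ : ActsProperly Γ)
    (hA : ContainsZ Γ k) : VirtuallySolvable Γ := by
  obtain ⟨f, hf⟩ := hA
  exact Pool.Agent.H30.T4.aff_main n k hk Γ hΓ f hf

end Pool.Agent.Results.MP_68c2bd_gt.MaximalAbelian
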