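import Mathlib
import Pool.Agent.H35.AP.Main

/-!
# Auslander's conjecture: direct products in properly discontinuous affine groups

`Γ` is a group of affine transformations of `ℝⁿ` which acts properly discontinuously; it need
not act cocompactly.  Suppose that `Γ` contains `H₁ × ... × Hₖ × ℤˡ` where each `Hᵢ` is
torsion-free and not solvable (for instance free or a surface group; by the Tits alternative
every linear group that is not virtually solvable contains such a group).  Then
`3 k + l ≤ n`, and there are `γᵢ ≠ 1` in the commutator subgroup of `Hᵢ` and a non-empty affine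
subspace `F` of dimension at most `n - 2 k` which is invariant under every affine transformation
that commutes with all `γᵢ`.

Proof.  Let `Γ` act on `E = ℝⁿ × ℝ`, with the invariant form `τ` and the affine space `τ = 1`.
For `γ` in `Γ` let `M(γ)` be the generalised `1`-eigenspace of `γ` in `E`.  The centraliser of
`γ` preserves it, and by the Fitting decomposition `τ` does not vanish on it; the same holds for
commuting families.  If `H` is torsion-free and not solvable and acts properly discontinuously
on an invariant `M ⊆ E`, some `γ ≠ 1` in `[H, H]` has `dim (M ∩ M(γ)) ≤ dim M - 2`: otherwise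
the elements of `[H, H]`, which have determinant one on `M`, are all unipotent on `M`, and by
Kolchin's theorem `[H, H]` is solvable.  This is applied to `H₁, ..., Hₖ` in turn.  The group
`ℤᵏ⁺ˡ` generated by the `γᵢ` and by `ℤˡ` acts properly discontinuously on the affine space that
remains, of dimension at most `n - 2 k`, hence `k + l ≤ n - 2 k`.
-/

set_option autoImplicit false

namespace Pool.Agent.Results.MP_68c2bd_gt.ProductSubgroups

/-- The invertible affine transformations of `ℝⁿ`. -/
def Aff (n : ℕ) : Type := (Fin n → ℝ) ≃ᵃ[ℝ] (Fin n → ℝ)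

/-- They form a group under composition (Mathlib's group structure). -/
instance affGroup (n : ℕ) : Group (Aff n) :=
  inferInstanceAs (Group ((Fin n → ℝ) ≃ᵃ[ℝ] (Fin n → ℝ)))

/-- The image of the point `x` under the affine transformation `g`. -/
def app {n : ℕ} (g : Aff n) (x : Fin n → ℝ) : Fin n → ℝ :=
  AffineEquiv.toEquiv g x

/-- `Γ` acts properly discontinuously on `ℝⁿ`: for every compact `K` the set of `g ∈ Γ` with
`g K ∩ K ≠ ∅` is finite. -/
def ActsProperly {n : ℕ} (Γ : Subgroup (Aff n)) : Prop :=
  ∀ K : Set (Fin n → ℝ), IsCompact K → {g : Aff n | g ∈ Γ ∧ (app g '' K ∩ K).Nonempty}.Finite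

/-- No element but the identity has finite order. -/
def TorsionFree (G : Type) [Group G] : Prop :=
  ∀ g : G, g ≠ 1 → ∀ m : ℕ, 0 < m → g ^ m ≠ 1

/-- If a properly discontinuous group of affine transformations of `ℝⁿ` contains the product of
`k` torsion-free non-solvable groups and of `ℤˡ`, then `3 k + l ≤ n`; and there are `γ i ≠ 1` in
the commutator subgroups of the factors and a non-empty affine subspace `F` with
`dim F + 2 k ≤ n` which is invariant under all affine transformations commuting with the
`γ i`. -/
theorem result (n k l : ℕ) (Γ : Subgroup (Aff n)) (hΓ : ActsProperly Γ)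
    (H : Fin k → Type) [∀ i, Group (H i)]
    (hH : ∀ i, TorsionFree (H i) ∧ ¬ Group.IsSolvable (H i))
    (f : ((∀ i, H i) × Multiplicative (Fin l → ℤ)) →* Γ) (hf : Function.Injective f) :
    3 * k + l ≤ n ∧
    ∃ (γ : ∀ i, H i) (F : AffineSubspace ℝ (Fin n → ℝ)),
      (∀ i, γ i ∈ commutator (H i) ∧ γ i ≠ 1) ∧
      (F : Set (Fin n → ℝ)).Nonempty ∧
      Module.finrank ℝ F.direction + 2 * k ≤ n ∧
      ∀ g : Aff n,
        (∀ i, g * (f (Pi.mulSingle i (γ i), 1) : Aff n) =
          (f (Pi.mulSingle i (γ i), 1) : Aff n) * g) →
        ∀ x ∈ F, app g x ∈ F := by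
  obtain ⟨h1, γ, h2, F, h3, h4, h5⟩ := Pool.Agent.H35.AP.main n k l Γ hΓ H hH f hf
  exact ⟨h1, γ, F, h2, h3, h4, h5⟩

end Pool.Agent.Results.MP_68c2bd_gt.ProductSubgroups
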